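import Mathlib
import Pool.Agent.Lib.MP_1cbbe5_an.Main

namespace Pool.Agent.Results.MP_1cbbe5_an.ExactRange

/-- Initial triples of unbounded solutions. Indices are shifted by two: `x 0, x 1, x 2` are the
initial values. -/
def Unb (β : ℝ) : Set (ℝ × ℝ × ℝ) :=
  {w | ∃ x : ℕ → ℝ, (∀ n, 0 < x n) ∧ (∀ n, x (n + 3) = (β * x (n + 2) + x (n + 1)) / x n) ∧
    x 0 = w.1 ∧ x 1 = w.2.1 ∧ x 2 = w.2.2 ∧ ¬ BddAbove (Set.range x)}

theorem result (β : ℝ) (hβ : 0 < β) :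
    (β = 1 → Unb β = ∅) ∧ (β ≠ 1 → 0 < MeasureTheory.volume (Unb β)) := by
  constructor
  · rintro rfl
    rw [Set.eq_empty_iff_forall_notMem]
    rintro w ⟨x, h1, h2, -, -, -, h3⟩
    exact h3 (Pool.Agent.Lib.MP_1cbbe5_an.bdd_one ⟨h1, fun n => by rw [h2 n, one_mul, one_mul]⟩)
  · intro hne
    refine lt_of_lt_of_le (Pool.Agent.Lib.MP_1cbbe5_an.pos_orig hβ one_pos hne)
      (MeasureTheory.measure_mono ?_)
    rintro w ⟨x, ⟨h1, h2⟩, h3⟩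
    exact ⟨x, h1, fun n => by rw [h2 n, one_mul], h3⟩

end Pool.Agent.Results.MP_1cbbe5_an.ExactRange
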